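import Pool.Agent.Helper59.LUC.Goals

set_option autoImplicit false

namespace Pool.Agent.Helper59.LUC

namespace PkLB

open Finset

/-- number of squarefree divisors -/
lemma card_sqfree {r : ℕ} (hr : r ≠ 0) :
    ((r.divisors.filter Squarefree).card : ℝ) = 2 ^ r.primeFactors.card := by
  have h := Nat.sum_divisors_filter_squarefree hr (f := fun _ => (1 : ℕ))
  simp only [Finset.sum_const, smul_eq_mul, mul_one, card_powerset] at h
  have h2 : (UniqueFactorizationMonoid.normalizedFactors r).toFinset = r.primeFactors := by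
    rw [Nat.factors_eq]
    rfl
  rw [h2] at h
  rw [h]; push_cast; rfl

lemma moebius_sum_bound {r : ℕ} (hr : r ≠ 0) (g : ℕ → ℝ) (K : ℝ)
    (hK : ∀ d ∈ r.divisors, |g d| ≤ K) :
    |∑ x ∈ r.divisorsAntidiagonal, ((ArithmeticFunction.moebius x.1 : ℤ) : ℝ) * g x.2| ≤
      2 ^ r.primeFactors.card * K := by
  have hK0 : 0 ≤ K := le_trans (abs_nonneg _) (hK 1 (Nat.one_mem_divisors.mpr hr))
  have h1 : |∑ x ∈ r.divisorsAntidiagonal, ((ArithmeticFunction.moebius x.1 : ℤ) : ℝ) * g x.2| ≤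
      ∑ x ∈ r.divisorsAntidiagonal, (if Squarefree x.1 then K else 0) := by
    refine (Finset.abs_sum_le_sum_abs _ _).trans (Finset.sum_le_sum fun x hx => ?_)
    have hx2 : x.2 ∈ r.divisors := Nat.snd_mem_divisors_of_mem_antidiagonal hx
    rw [abs_mul]
    split_ifs with hs
    · have h3 : |((ArithmeticFunction.moebius x.1 : ℤ) : ℝ)| ≤ 1 := by
        exact_mod_cast (ArithmeticFunction.abs_moebius_le_one (n := x.1))
      calc |((ArithmeticFunction.moebius x.1 : ℤ) : ℝ)| * |g x.2| ≤ 1 * K :=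
            mul_le_mul h3 (hK _ hx2) (abs_nonneg _) zero_le_one
        _ = K := one_mul _
    · rw [ArithmeticFunction.moebius_eq_zero_of_not_squarefree hs]
      simp
  refine h1.trans (le_of_eq ?_)
  rw [Nat.sum_divisorsAntidiagonal (fun i _ => if Squarefree i then K else (0 : ℝ))]
  rw [← Finset.sum_filter, Finset.sum_const, nsmul_eq_mul, card_sqfree hr]

lemma totient_moebius {r : ℕ} (hr : 0 < r) :
    ∑ x ∈ r.divisorsAntidiagonal, ((ArithmeticFunction.moebius x.1 : ℤ) : ℝ) * (x.2 : ℝ) =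
      (r.totient : ℝ) := by
  refine (ArithmeticFunction.sum_eq_iff_sum_mul_moebius_eq
    (f := fun n : ℕ => (n.totient : ℝ)) (g := fun n : ℕ => (n : ℝ))).mp ?_ r hr
  intro n _
  have h := Nat.sum_totient n
  exact_mod_cast h

lemma log_bound {x : ℝ} (hx : 1 ≤ x) : (Real.log x) ^ 4 ≤ 4096 * x ^ ((1 : ℝ) / 2) := by
  have h0 : (0 : ℝ) ≤ x := by linarith
  have h1 : Real.log x ≤ x ^ ((1 : ℝ) / 8) / (1 / 8) := Real.log_le_rpow_div h0 (by norm_num)
  have h2 : 0 ≤ Real.log x := Real.log_nonneg hx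
  have h3 : Real.log x ≤ 8 * x ^ ((1 : ℝ) / 8) := by linarith
  calc (Real.log x) ^ 4 ≤ (8 * x ^ ((1 : ℝ) / 8)) ^ 4 := pow_le_pow_left₀ h2 h3 4
    _ = 4096 * (x ^ ((1 : ℝ) / 8)) ^ 4 := by ring
    _ = 4096 * x ^ ((1 : ℝ) / 2) := by
        rw [← Real.rpow_natCast, ← Real.rpow_mul h0]
        norm_num

theorem thm (h6 : G_LT6) (hn : G_NT) : G_LB := by
  intro T M η hc N hN ε hε
  obtain ⟨C, hC, hlow⟩ := h6 T M η hc
  obtain ⟨C', hC', hnt⟩ := hn
  -- logarithms
  set g : ℕ → ℝ := fun d => Real.log ‖η ^ d - 1‖ with hg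
  have hNpos : ∀ d : ℕ, 1 ≤ d → 0 < (N d : ℝ) := by
    intro d hd
    have h1 := hN.prod d hd
    have h2 := hc.W_pos hd
    rw [← h1] at h2
    have h3 : (N d : ℤ) ≠ 0 := by
      intro h0
      have : (∏ e ∈ d.divisors, (N e : ℤ)) = 0 :=
        Finset.prod_eq_zero (Nat.mem_divisors_self d (by omega)) h0
      omega
    have h4 : N d ≠ 0 := by exact_mod_cast h3
    exact_mod_cast Nat.pos_of_ne_zero h4
  have hpos : ∀ d : ℕ, 1 ≤ d → 0 < ‖η ^ d - 1‖ := by
    intro d hd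
    rw [norm_pos_iff, sub_ne_zero]
    exact hc.hru d hd
  have hsum : ∀ n : ℕ, n > 0 → ∑ i ∈ n.divisors, Real.log (N i) =
      (n : ℝ) * Real.log M + 2 * g n := by
    intro n hn0
    have h1 := hN.prod n hn0
    have h2 := hc.W_eq n
    rw [← h1] at h2
    push_cast at h2
    rw [← Real.log_prod, h2, Real.log_mul, Real.log_pow, Real.log_pow]
    · norm_num [hg]
    · exact pow_ne_zero _ hc.MR.ne'
    · exact pow_ne_zero _ (hpos n hn0).ne'
    · intro i hi
      exact (hNpos i (Nat.pos_of_mem_divisors hi)).ne'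
  have hinv := (ArithmeticFunction.sum_eq_iff_sum_mul_moebius_eq
    (f := fun i : ℕ => Real.log (N i))
    (g := fun n : ℕ => (n : ℝ) * Real.log M + 2 * g n)).mp hsum
  have hmain : ∀ r : ℕ, 1 ≤ r → Real.log (N r) = (r.totient : ℝ) * Real.log M +
      2 * ∑ x ∈ r.divisorsAntidiagonal, ((ArithmeticFunction.moebius x.1 : ℤ) : ℝ) * g x.2 := by
    intro r hr
    have h1 := hinv r hr
    rw [← h1, ← totient_moebius hr, Finset.sum_mul, Finset.mul_sum, ← Finset.sum_add_distrib]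
    refine Finset.sum_congr rfl fun x _ => ?_
    ring
  -- bound of g
  have hgb : ∀ r : ℕ, 1 ≤ r → ∀ d ∈ r.divisors, |g d| ≤ (C + 1) * (Real.log ((r : ℝ) + 2)) ^ 4 := by
    intro r hr d hd
    have hd1 : 1 ≤ d := Nat.pos_of_mem_divisors hd
    have hdr : d ≤ r := Nat.divisor_le hd
    have hdrR : (d : ℝ) + 2 ≤ (r : ℝ) + 2 := by
      have : (d : ℝ) ≤ r := by exact_mod_cast hdr
      linarith
    have hd1R : (1 : ℝ) ≤ d := by exact_mod_cast hd1
    have hlog1 : 1 ≤ Real.log ((d : ℝ) + 2) := by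
      rw [Real.le_log_iff_exp_le (by linarith)]
      have := Real.exp_one_lt_d9
      linarith
    have hlogle : Real.log ((d : ℝ) + 2) ≤ Real.log ((r : ℝ) + 2) :=
      Real.log_le_log (by linarith) hdrR
    have hpowle : (Real.log ((d : ℝ) + 2)) ^ 4 ≤ (Real.log ((r : ℝ) + 2)) ^ 4 :=
      pow_le_pow_left₀ (by linarith) hlogle 4
    have hpow1 : 1 ≤ (Real.log ((r : ℝ) + 2)) ^ 4 := by
      have : 1 ≤ (Real.log ((d : ℝ) + 2)) ^ 4 := one_le_pow₀ hlog1
      linarith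
    rw [abs_le]
    constructor
    · have h1 := hlow d hd1
      have h2 : -(C * (Real.log ((d : ℝ) + 2)) ^ 4) ≤ g d := by
        rw [hg]
        rw [Real.le_log_iff_exp_le (hpos d hd1)]
        exact h1
      have h3 : C * (Real.log ((d : ℝ) + 2)) ^ 4 ≤ C * (Real.log ((r : ℝ) + 2)) ^ 4 :=
        mul_le_mul_of_nonneg_left hpowle hC.le
      nlinarith
    · have h1 : ‖η ^ d - 1‖ ≤ 2 := by
        calc ‖η ^ d - 1‖ ≤ ‖η ^ d‖ + ‖(1 : ℂ)‖ := norm_sub_le _ _
          _ = 2 := by rw [hc.norm_pow]; norm_num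
      have h2 : g d ≤ Real.log 2 := Real.log_le_log (hpos d hd1) h1
      have h3 : Real.log 2 ≤ 1 := by
        have := Real.log_two_lt_d9
        linarith
      nlinarith
  -- choice of r0
  set K : ℝ := 32768 * (C + 1) * C' / ε with hK
  have hKpos : 0 < K := by positivity
  obtain ⟨r0, hr0⟩ := exists_nat_ge (K ^ 4)
  refine ⟨r0 + 1, fun r hr => ?_⟩
  have hr1 : 1 ≤ r := by omega
  have hrR : K ^ 4 ≤ (r : ℝ) := by
    have : (r0 : ℝ) ≤ r := by exact_mod_cast (by omega : r0 ≤ r)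
    linarith
  have hr1R : (1 : ℝ) ≤ r := by exact_mod_cast hr1
  have hr0R : (0 : ℝ) < r := by linarith
  have hbd := moebius_sum_bound (by omega : r ≠ 0) g _ (hgb r hr1)
  have hlo : -(2 ^ r.primeFactors.card * ((C + 1) * (Real.log ((r : ℝ) + 2)) ^ 4)) ≤
      ∑ x ∈ r.divisorsAntidiagonal, ((ArithmeticFunction.moebius x.1 : ℤ) : ℝ) * g x.2 :=
    (abs_le.mp hbd).1
  have hlb := log_bound (by linarith : (1 : ℝ) ≤ (r : ℝ) + 2)
  have hsq : ((r : ℝ) + 2) ^ ((1 : ℝ) / 2) ≤ 2 * (r : ℝ) ^ ((1 : ℝ) / 2) := by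
    calc ((r : ℝ) + 2) ^ ((1 : ℝ) / 2) ≤ (4 * (r : ℝ)) ^ ((1 : ℝ) / 2) := by
          apply Real.rpow_le_rpow <;> linarith
      _ = 2 * (r : ℝ) ^ ((1 : ℝ) / 2) := by
          rw [Real.mul_rpow (by norm_num) hr0R.le]
          congr 1
          rw [← Real.sqrt_eq_rpow]
          rw [show (4 : ℝ) = 2 ^ 2 by norm_num, Real.sqrt_sq (by norm_num)]
  have hK1 : K ≤ (r : ℝ) ^ ((1 : ℝ) / 4) := by
    have h1 : (K ^ 4) ^ ((1 : ℝ) / 4) ≤ (r : ℝ) ^ ((1 : ℝ) / 4) :=
      Real.rpow_le_rpow (by positivity) hrR (by norm_num)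
    have h2 : (K ^ 4) ^ ((1 : ℝ) / 4) = K := by
      rw [← Real.rpow_natCast, ← Real.rpow_mul hKpos.le]
      norm_num
    rw [h2] at h1
    exact h1
  have hnt' := hnt r hr1
  -- final inequality
  have hφ : 0 ≤ (r.totient : ℝ) := by positivity
  have hfin : 2 * (2 ^ r.primeFactors.card * ((C + 1) * (Real.log ((r : ℝ) + 2)) ^ 4)) ≤
      ε * (r.totient : ℝ) := by
    set w : ℝ := 2 ^ r.primeFactors.card with hw
    have hw0 : 0 < w := by positivity
    set q : ℝ := (r : ℝ) ^ ((1 : ℝ) / 2) with hq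
    set u : ℝ := (r : ℝ) ^ ((1 : ℝ) / 4) with hu
    have hu0 : 0 < u := Real.rpow_pos_of_pos hr0R _
    have hq0 : 0 < q := Real.rpow_pos_of_pos hr0R _
    have hqu : (r : ℝ) ^ ((3 : ℝ) / 4) = q * u := by
      rw [hq, hu, ← Real.rpow_add hr0R]; norm_num
    rw [hqu] at hnt'
    have hL : (Real.log ((r : ℝ) + 2)) ^ 4 ≤ 8192 * q := by linarith
    have h1 : 2 * (w * ((C + 1) * (Real.log ((r : ℝ) + 2)) ^ 4)) ≤
        2 * (w * ((C + 1) * (8192 * q))) := by
      have : (C + 1) * (Real.log ((r : ℝ) + 2)) ^ 4 ≤ (C + 1) * (8192 * q) :=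
        mul_le_mul_of_nonneg_left hL (by linarith)
      have := mul_le_mul_of_nonneg_left this hw0.le
      linarith
    refine h1.trans ?_
    have h2 : K * (w * q) ≤ C' * (r.totient : ℝ) := by
      calc K * (w * q) ≤ u * (w * q) := mul_le_mul_of_nonneg_right hK1 (by positivity)
        _ = w * (q * u) := by ring
        _ ≤ C' * (r.totient : ℝ) := hnt'
    have h3 : K * ε = 32768 * (C + 1) * C' := by
      rw [hK]; field_simp
    -- multiply by ε / C'
    have h4 : C' * (2 * (w * ((C + 1) * (8192 * q)))) ≤ C' * (ε * (r.totient : ℝ)) := by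
      have h5 : ε * (K * (w * q)) ≤ ε * (C' * (r.totient : ℝ)) :=
        mul_le_mul_of_nonneg_left h2 hε.le
      have h6 : ε * (K * (w * q)) = 32768 * (C + 1) * C' * (w * q) := by
        rw [← h3]; ring
      have h7 : 0 ≤ (C + 1) * C' * (w * q) := by positivity
      nlinarith
    exact le_of_mul_le_mul_left h4 hC'
  have hlogN := hmain r hr1
  rw [← Real.le_log_iff_exp_le (hNpos r hr1), hlogN]
  nlinarith

end PkLB

end Pool.Agent.Helper59.LUC
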